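import Pool.Agent.N863.FE.Core
import Pool.Agent.N395.FEMON

/-!
# Highest weight vectors (project FE, leaf CNT)
-/

set_option autoImplicit false
set_option linter.unusedSectionVars false

namespace Pool.Agent.N588.FE

open Module LieAlgebra LieModule
open Pool.Agent.N863.FE
open Pool.Agent.N183.FE (Bd MON)

attribute [local instance 100] LieRing.ofAssociativeRing

section

variable {Ω 𝔤 : Type} [Field Ω] [IsAlgClosed Ω] [CharZero Ω] [LieRing 𝔤] [LieAlgebra Ω 𝔤]
  [FiniteDimensional Ω 𝔤] [IsKilling Ω 𝔤] (H : LieSubalgebra Ω 𝔤) [H.IsCartanSubalgebra]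
  (h : H) (ell : Ω →ₗ[ℚ] ℚ)

open Classical in
/-- the positive roots -/
noncomputable def pos : Finset (Weight Ω H 𝔤) := Finset.univ.filter fun α => 0 < ell (α h)

theorem mem_pos (α : Weight Ω H 𝔤) : α ∈ pos H h ell ↔ 0 < ell (α h) := by
  classical
  simp [pos]

/-- the Borel subalgebra -/
noncomputable def PP : Submodule Ω 𝔤 :=
  H.toSubmodule ⊔ ⨆ α ∈ pos H h ell, (rootSpace H (α : H → Ω)).toSubmodule

variable {H h ell}

theorem span_top (hg0 : ∀ α : Weight Ω H 𝔤, ell (α h) = 0 → α.IsZero)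
    (x : Weight Ω H 𝔤 → 𝔤) (hx : ∀ α : Weight Ω H 𝔤, x α ∈ rootSpace H (-α : H → Ω))
    (hx0 : ∀ α, x α ≠ 0) :
    ⊤ ≤ PP H h ell ⊔ Submodule.span Ω
      (Set.range fun α : {α : Weight Ω H 𝔤 // α ∈ pos H h ell} => x α.1) := by
  intro y _
  have hy : y ∈ (⨆ χ : Weight Ω H 𝔤, genWeightSpace 𝔤 χ : LieSubmodule Ω H 𝔤) := by
    rw [iSup_genWeightSpace_eq_top']
    exact LieSubmodule.mem_top _
  induction hy using LieSubmodule.iSup_induction' with
  | mem α y hy =>
    rcases lt_trichotomy (ell (α h)) 0 with h1 | h1 | h1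
    · refine Submodule.mem_sup_right ?_
      have h2 : (-α) ∈ pos H h ell := by
        rw [mem_pos]
        have h3 : (-α : Weight Ω H 𝔤) h = -(α h) := rfl
        rw [h3, map_neg]
        linarith
      have hα : α.IsNonZero := by
        intro h3
        have h4 : ell (α h) = 0 := by
          rw [h3.eq, Pi.zero_apply, map_zero]
        linarith
      have h3 := LieAlgebra.IsKilling.finrank_rootSpace_eq_one α hα
      have h4 : x (-α) ∈ rootSpace H (α : H → Ω) := by
        have h5 := hx (-α)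
        rwa [Weight.coe_neg, neg_neg] at h5
      obtain ⟨c, hc⟩ := (finrank_eq_one_iff_of_nonzero' (⟨x (-α), h4⟩ : rootSpace H (α : H → Ω))
        (fun h5 => hx0 (-α) (congrArg Subtype.val h5))).1 h3 ⟨y, hy⟩
      have h5 : c • x (-α) = y := congrArg Subtype.val hc
      rw [← h5]
      exact Submodule.smul_mem _ _ (Submodule.subset_span ⟨⟨-α, h2⟩, rfl⟩)
    · refine Submodule.mem_sup_left (Submodule.mem_sup_left ?_)
      have h2 := (hg0 α h1).eq
      rw [h2] at hy
      have h3 : y ∈ rootSpace H (0 : H → Ω) := hy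
      rw [rootSpace_zero_eq Ω 𝔤 H] at h3
      exact h3
    · refine Submodule.mem_sup_left (Submodule.mem_sup_right ?_)
      exact Submodule.mem_iSup_of_mem α (Submodule.mem_iSup_of_mem ((mem_pos H h ell α).2 h1) hy)
  | zero => exact Submodule.zero_mem _
  | add v w _ _ h1 h2 => exact Submodule.add_mem _ (h1 trivial) (h2 trivial)

variable {V : Type} [AddCommGroup V] [Module Ω V] [LieRingModule 𝔤 V] [LieModule Ω 𝔤 V]
  [FiniteDimensional Ω V]

/-- highest weight vectors -/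
theorem high [Nontrivial V] : ∃ (lam : Weight Ω H V) (v : V), v ≠ 0 ∧
    v ∈ genWeightSpace V (lam : H → Ω) ∧ (∀ y : H, ⁅y, v⁆ = lam y • v) ∧
    (∀ μ : Weight Ω H V, ell (μ h) ≤ ell (lam h)) ∧
    ∀ α ∈ pos H h ell, ∀ y ∈ rootSpace H (α : H → Ω), ⁅y, v⁆ = 0 := by
  have hne : Nonempty (Weight Ω H V) := by
    by_contra hcon
    rw [not_nonempty_iff] at hcon
    have h1 := iSup_genWeightSpace_eq_top' Ω H V
    rw [iSup_of_empty] at h1
    obtain ⟨v, hv⟩ := exists_ne (0 : V)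
    have h2 : v ∈ (⊤ : LieSubmodule Ω H V) := LieSubmodule.mem_top _
    rw [← h1] at h2
    exact hv ((LieSubmodule.mem_bot _).1 h2)
  obtain ⟨lam, hlam⟩ := Finite.exists_max fun μ : Weight Ω H V => ell (μ h)
  obtain ⟨v, hv0, hv⟩ := exists_forall_lie_eq_smul Ω H V lam
  have hvl : v ∈ genWeightSpace V (lam : H → Ω) :=
    weightSpace_le_genWeightSpace V _ ((mem_weightSpace _ _).2 hv)
  refine ⟨lam, v, hv0, hvl, hv, hlam, fun α hα y hy => ?_⟩
  by_contra hne
  obtain ⟨ν, hν⟩ := ex_wt H (lie_mem_genWeightSpace_of_mem_genWeightSpace hy hvl) hne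
  have h1 := congrFun hν h
  rw [Pi.add_apply] at h1
  have h2 : ell (ν h) = ell (α h) + ell (lam h) := by rw [h1, map_add]
  have h3 := hlam ν
  have h4 := (mem_pos H h ell α).1 hα
  linarith

/-- monomials in the lowering operators -/
theorem mono_wt (x : Weight Ω H 𝔤 → 𝔤) (hx : ∀ α : Weight Ω H 𝔤, x α ∈ rootSpace H (-α : H → Ω))
    {lam : Weight Ω H V} {v : V} (hvl : v ∈ genWeightSpace V (lam : H → Ω))
    (l : List {α : Weight Ω H 𝔤 // α ∈ pos H h ell})
    (hl : (l.map fun α => toEnd Ω 𝔤 V (x α.1)).prod v ≠ 0) : ∃ μ : Weight Ω H V,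
      (l.map fun α => toEnd Ω 𝔤 V (x α.1)).prod v ∈ genWeightSpace V (μ : H → Ω) ∧
      l.length + 1 ≤ (Finset.univ.filter fun ν : Weight Ω H V => ell (μ h) ≤ ell (ν h)).card ∧
      (l ≠ [] → ell (μ h) < ell (lam h)) := by
  classical
  induction l with
  | nil =>
    refine ⟨lam, hvl, ?_, fun h => absurd rfl h⟩
    exact Finset.card_pos.2 ⟨lam, by simp⟩
  | cons i l ih =>
    rw [List.map_cons, List.prod_cons, Module.End.mul_apply] at hl ⊢
    have hu : (l.map fun α => toEnd Ω 𝔤 V (x α.1)).prod v ≠ 0 := by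
      intro h1
      rw [h1, map_zero] at hl
      exact hl rfl
    obtain ⟨μ, hμ, hc, hlt⟩ := ih hu
    have hm := lie_mem_genWeightSpace_of_mem_genWeightSpace (hx i.1) hμ
    obtain ⟨ν, hν⟩ := ex_wt H hm hl
    have h1 := congrFun hν h
    rw [Pi.add_apply, Pi.neg_apply] at h1
    have h2 : ell (ν h) = - ell (i.1 h) + ell (μ h) := by
      rw [h1, map_add, map_neg]
    have h4 := (mem_pos H h ell _).1 i.2
    refine ⟨ν, by rw [hν]; exact hm, ?_, fun _ => ?_⟩
    · have h5 : (Finset.univ.filter fun ν : Weight Ω H V => ell (μ h) ≤ ell (ν h)) ⊂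
          (Finset.univ.filter fun ν' : Weight Ω H V => ell (ν h) ≤ ell (ν' h)) := by
        rw [Finset.ssubset_iff_of_subset]
        · refine ⟨ν, by simp, ?_⟩
          rw [Finset.mem_filter]
          rintro ⟨_, h6⟩
          linarith
        · intro ν' h6
          rw [Finset.mem_filter] at h6 ⊢
          exact ⟨h6.1, by linarith [h6.2]⟩
      have h6 := Finset.card_lt_card h5
      rw [List.length_cons]
      omega
    · rcases eq_or_ne l [] with h5 | h5
      · subst h5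
        have h6 : v ∈ genWeightSpace V (μ : H → Ω) := by simpa using hμ
        have h7 : μ = lam := by
          by_contra hne
          have hd := (iSupIndep_genWeightSpace' Ω H V).pairwiseDisjoint hne
          have h8 : v ∈ (⊥ : LieSubmodule Ω H V) := hd.le_bot ⟨h6, hvl⟩
          rw [LieSubmodule.mem_bot] at h8
          exact hu (by simpa using h8)
        rw [h7] at h2
        linarith
      · have := hlt h5
        linarith

/-- a functional which only sees the highest weight vector -/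
theorem ex_theta (x : Weight Ω H 𝔤 → 𝔤)
    (hx : ∀ α : Weight Ω H 𝔤, x α ∈ rootSpace H (-α : H → Ω))
    {lam : Weight Ω H V} {v : V} (hvl : v ∈ genWeightSpace V (lam : H → Ω)) (hv0 : v ≠ 0) :
    ∃ θ : V →ₗ[Ω] Ω, θ v ≠ 0 ∧ ∀ l : List {α : Weight Ω H 𝔤 // α ∈ pos H h ell}, l ≠ [] →
      θ ((l.map fun α => toEnd Ω 𝔤 V (x α.1)).prod v) = 0 := by
  let S : LieSubmodule Ω H V := ⨆ μ : Weight Ω H V, ⨆ _ : μ ≠ lam, genWeightSpace V (μ : H → Ω)
  have hvS : v ∉ S.toSubmodule := by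
    intro h1
    have hd := (iSupIndep_genWeightSpace' Ω H V) lam
    have h8 : v ∈ (⊥ : LieSubmodule Ω H V) := hd.le_bot ⟨hvl, h1⟩
    rw [LieSubmodule.mem_bot] at h8
    exact hv0 h8
  obtain ⟨θ, h1, h2⟩ := Submodule.exists_dual_map_eq_bot_of_notMem hvS inferInstance
  refine ⟨θ, h1, fun l hl => ?_⟩
  by_cases h3 : (l.map fun α => toEnd Ω 𝔤 V (x α.1)).prod v = 0
  · rw [h3, map_zero]
  · obtain ⟨μ, h4, -, h5⟩ := mono_wt x hx hvl l h3
    have h6 : μ ≠ lam := by
      rintro rfl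
      exact lt_irrefl _ (h5 hl)
    have h7 : (l.map fun α => toEnd Ω 𝔤 V (x α.1)).prod v ∈ S.toSubmodule :=
      (le_iSup₂_of_le (f := fun (μ : Weight Ω H V) (_ : μ ≠ lam) =>
        genWeightSpace V (μ : H → Ω)) μ h6 le_rfl) h4
    have h8 : θ ((l.map fun α => toEnd Ω 𝔤 V (x α.1)).prod v) ∈ S.toSubmodule.map θ :=
      ⟨_, h7, rfl⟩
    rw [h2] at h8
    exact (Submodule.mem_bot _).1 h8

/-- the dimension bound -/
theorem dim_le [Nontrivial V]
    (hirr : ∀ U : Submodule Ω V, (∀ y : 𝔤, ∀ u ∈ U, ⁅y, u⁆ ∈ U) → U = ⊥ ∨ U = ⊤)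
    (hg0 : ∀ α : Weight Ω H 𝔤, ell (α h) = 0 → α.IsZero) :
    finrank Ω V ≤ Bd (Fintype.card (Weight Ω H V)) := by
  classical
  obtain ⟨lam, v, hv0, hvl, hv, hlam, hpv⟩ := high (H := H) (h := h) (ell := ell) (V := V)
  have hx' : ∀ α : Weight Ω H 𝔤, ∃ x : 𝔤, x ∈ rootSpace H (-α : H → Ω) ∧ x ≠ 0 := by
    intro α
    obtain ⟨x, hx, hx0⟩ := (-α).exists_ne_zero
    exact ⟨x, hx, hx0⟩
  choose x hx hx0 using hx'
  have hsp := span_top hg0 x hx hx0
  let ρ : 𝔤 →ₗ[Ω] End Ω V := (toEnd Ω 𝔤 V : 𝔤 →ₗ[Ω] End Ω V)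
  have hρ : ∀ a b : 𝔤, ρ a * ρ b - ρ b * ρ a = ρ ⁅a, b⁆ := by
    intro a b
    exact ((toEnd Ω 𝔤 V).map_lie a b).symm
  let Φ : Finset (Weight Ω H 𝔤) := (pos H h ell).filter fun α => ρ (x α) ≠ 0
  have hΦ : ∀ α, α ∈ Φ ↔ α ∈ pos H h ell ∧ ρ (x α) ≠ 0 := fun α => by simp [Φ]
  let E := Φ.equivFin
  let e : Fin Φ.card → End Ω V := fun i => ρ (x (E.symm i).1)
  have hcov : ∀ y : 𝔤, ρ y ∈ (PP H h ell).map ρ ⊔ Submodule.span Ω (Set.range e) := by
    intro y
    have h1 : ρ y ∈ (PP H h ell ⊔ Submodule.span Ω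
      (Set.range fun α : {α : Weight Ω H 𝔤 // α ∈ pos H h ell} => x α.1)).map ρ :=
      ⟨y, hsp trivial, rfl⟩
    rw [Submodule.map_sup, Submodule.map_span] at h1
    have hle : Submodule.span Ω (ρ '' (Set.range fun α : {α : Weight Ω H 𝔤 // α ∈ pos H h ell} =>
        x α.1)) ≤ Submodule.span Ω (Set.range e) := by
      rw [Submodule.span_le]
      rintro _ ⟨_, ⟨α, rfl⟩, rfl⟩
      change ρ (x α.1) ∈ Submodule.span Ω (Set.range e)
      by_cases h2 : ρ (x α.1) = 0
      · rw [h2]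
        exact Submodule.zero_mem _
      · refine Submodule.subset_span ⟨E ⟨α.1, (hΦ _).2 ⟨α.2, h2⟩⟩, ?_⟩
        change ρ (x (E.symm (E ⟨α.1, (hΦ _).2 ⟨α.2, h2⟩⟩)).1) = _
        rw [Equiv.symm_apply_apply]
    exact sup_le_sup_left hle _ h1
  -- the number of lowering operators
  have hdiff : ∀ α : {α : Weight Ω H 𝔤 // α ∈ Φ}, ∃ p : Weight Ω H V × Weight Ω H V,
      ∀ y, α.1 y = p.1 y - p.2 y := by
    rintro ⟨α, hα⟩
    by_contra hcon
    push Not at hcon
    apply ((hΦ α).1 hα).2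
    refine LinearMap.ext fun v => ?_
    have hv : v ∈ (⨆ χ : Weight Ω H V, genWeightSpace V χ : LieSubmodule Ω H V) := by
      rw [iSup_genWeightSpace_eq_top']
      exact LieSubmodule.mem_top _
    rw [LinearMap.zero_apply]
    induction hv using LieSubmodule.iSup_induction' with
    | mem μ v hv =>
      by_contra hne
      obtain ⟨ν, hν⟩ := ex_wt H (lie_mem_genWeightSpace_of_mem_genWeightSpace (hx α) hv) hne
      obtain ⟨y, hy⟩ := hcon (μ, ν)
      apply hy
      have h1 := congrFun hν y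
      rw [Pi.add_apply, Pi.neg_apply] at h1
      change α y = μ y - ν y
      rw [h1]
      ring
    | zero => exact map_zero _
    | add v w _ _ h1 h2 => rw [map_add, h1, h2, add_zero]
  choose p hp using hdiff
  have hpinj : Function.Injective p := by
    intro α β hαβ
    refine Subtype.ext ?_
    ext y
    rw [hp, hp, hαβ]
  have hd : Φ.card ≤ Fintype.card (Weight Ω H V) * (Fintype.card (Weight Ω H V) - 1) / 2 := by
    have h1 := pairs_card (fun ν : Weight Ω H V => ell (ν h)) (Fintype.card (Weight Ω H V)) le_rfl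
      (Finset.univ.image p) (by
        intro q hq
        obtain ⟨α, _, rfl⟩ := Finset.mem_image.1 hq
        have h1 := (mem_pos H h ell α.1).1 ((hΦ α.1).1 α.2).1
        rw [hp, map_sub] at h1
        linarith)
    rwa [Finset.card_image_of_injective _ hpinj, Finset.card_univ, Fintype.card_coe] at h1
  have hM := MON Ω V (LinearMap.range ρ) ((PP H h ell).map ρ) (Fintype.card (Weight Ω H V))
    Φ.card e v (by
      intro U hU
      exact hirr U fun y u hu => hU (ρ y) ⟨y, rfl⟩ u hu) hv0 (by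
      rintro _ ⟨y, rfl⟩
      exact hcov y) (by
      rintro _ ⟨y, hy, rfl⟩ i
      change ρ y * ρ (x (E.symm i).1) - ρ (x (E.symm i).1) * ρ y ∈ _
      rw [hρ]
      exact hcov _) (by
      rintro _ ⟨y, hy, rfl⟩
      let Q : Submodule Ω 𝔤 :=
        { carrier := {x | ∃ c : Ω, ⁅x, v⁆ = c • v}
          zero_mem' := ⟨0, by rw [zero_lie, zero_smul]⟩
          add_mem' := by
            rintro a b ⟨c, hc⟩ ⟨d, hd⟩
            exact ⟨c + d, by rw [add_lie, hc, hd, add_smul]⟩
          smul_mem' := by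
            rintro r a ⟨c, hc⟩
            exact ⟨r * c, by rw [smul_lie, hc, mul_smul]⟩ }
      have hQ : PP H h ell ≤ Q :=
        sup_le (fun y hy => ⟨lam ⟨y, hy⟩, hv ⟨y, hy⟩⟩) (iSup₂_le fun α hα y hy =>
          ⟨0, by rw [zero_smul]; exact hpv α hα y hy⟩)
      exact hQ hy) (by
      intro l hl
      have h1 : (l.map e) = ((l.map fun i => (⟨(E.symm i).1, ((hΦ _).1 (E.symm i).2).1⟩ :
          {α : Weight Ω H 𝔤 // α ∈ pos H h ell})).map fun α => toEnd Ω 𝔤 V (x α.1)) := by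
        rw [List.map_map]
        rfl
      rw [h1] at hl
      obtain ⟨μ, _, hc, _⟩ := mono_wt x hx hvl _ hl
      have h2 := Finset.card_filter_le (Finset.univ : Finset (Weight Ω H V))
        fun ν => ell (μ h) ≤ ell (ν h)
      rw [Finset.card_univ] at h2
      rw [List.length_map] at hc
      omega)
  refine hM.trans ?_
  exact Finset.sum_le_sum fun j _ => Nat.pow_le_pow_left hd j

end

end Pool.Agent.N588.FE
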