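import Pool.Agent.N588.FE.Two
import Pool.Agent.N183.FE.Stm2

/-!
# Several irreducible modules (project FE, leaf CNT)
-/

set_option autoImplicit false
set_option linter.unusedSectionVars false

namespace Pool.Agent.N588.FE

open Module LieAlgebra LieModule
open Pool.Agent.N863.FE
open Pool.Agent.N183.FE (Bd Dd)

attribute [local instance 100] LieRing.ofAssociativeRing

theorem Bd_mono {a b : ℕ} (hab : a ≤ b) : Bd a ≤ Bd b := by
  have h1 : a * (a - 1) / 2 ≤ b * (b - 1) / 2 :=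
    Nat.div_le_div_right (Nat.mul_le_mul hab (Nat.sub_le_sub_right hab 1))
  calc Bd a ≤ ∑ j ∈ Finset.range a, (b * (b - 1) / 2) ^ j :=
        Finset.sum_le_sum fun j _ => Nat.pow_le_pow_left h1 j
    _ ≤ Bd b := Finset.sum_le_sum_of_subset (Finset.range_mono hab)

/-- the final estimate -/
theorem sum_bd {s k : ℕ} (d w : Fin s → ℕ) (hd : ∀ i, d i ≤ Bd (w i)) (hs : s ≤ k)
    (hw : ∀ i, w i ≤ k) (h1 : ∀ i j, w i = k → w j = k → i = j) :
    ∑ i, d i ^ 2 ≤ Dd k := by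
  classical
  have hB : Bd (k - 1) ≤ Bd k := Bd_mono (Nat.sub_le k 1)
  have h2 : ∀ i, w i ≠ k → d i ^ 2 ≤ Bd (k - 1) ^ 2 := fun i hi =>
    Nat.pow_le_pow_left ((hd i).trans (Bd_mono (by have := hw i; omega))) 2
  have h3 : ∀ i, d i ^ 2 ≤ Bd k ^ 2 := fun i =>
    Nat.pow_le_pow_left ((hd i).trans (Bd_mono (hw i))) 2
  rcases Nat.eq_zero_or_pos s with h0 | h0
  · subst h0
    simp
  have h4 : ∃ i0 : Fin s, ∀ i, i ≠ i0 → w i ≠ k := by
    by_cases h5 : ∃ i, w i = k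
    · obtain ⟨i0, hi0⟩ := h5
      exact ⟨i0, fun i hi h6 => hi (h1 i i0 h6 hi0)⟩
    · push Not at h5
      exact ⟨⟨0, h0⟩, fun i _ => h5 i⟩
  obtain ⟨i0, hi0⟩ := h4
  rw [← Finset.add_sum_erase _ _ (Finset.mem_univ i0)]
  refine Nat.add_le_add (h3 i0) ?_
  refine (Finset.sum_le_card_nsmul _ _ (Bd (k - 1) ^ 2) fun i hi =>
    h2 i (hi0 i (Finset.ne_of_mem_erase hi))).trans ?_
  rw [Finset.card_erase_of_mem (Finset.mem_univ _), Finset.card_univ, Fintype.card_fin,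
    smul_eq_mul]
  exact Nat.mul_le_mul_right _ (Nat.sub_le_sub_right hs 1)

section

variable {Ω 𝔤 : Type} [Field Ω] [IsAlgClosed Ω] [CharZero Ω] [LieRing 𝔤] [LieAlgebra Ω 𝔤]
  [FiniteDimensional Ω 𝔤] [IsKilling Ω 𝔤]
  {s : ℕ} {V : Fin s → Type} [∀ i, AddCommGroup (V i)] [∀ i, Module Ω (V i)]
  [∀ i, LieRingModule 𝔤 (V i)] [∀ i, LieModule Ω 𝔤 (V i)]
  [∀ i, FiniteDimensional Ω (V i)] [∀ i, Nontrivial (V i)]

/-- every root is a difference of weights -/
theorem root_diff' (H : LieSubalgebra Ω 𝔤) [H.IsCartanSubalgebra]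
    (hf : ∀ x : 𝔤, (∀ i, ∀ v : V i, ⁅x, v⁆ = 0) → x = 0) (α : Weight Ω H 𝔤) :
    ∃ (i : Fin s) (μ ν : Weight Ω H (V i)), ∀ y, α y = μ y - ν y := by
  obtain ⟨x, hx, hx0⟩ := α.exists_ne_zero
  by_contra hcon
  push Not at hcon
  apply hx0
  apply hf
  intro i v
  have hv : v ∈ (⨆ χ : Weight Ω H (V i), genWeightSpace (V i) χ : LieSubmodule Ω H (V i)) := by
    rw [iSup_genWeightSpace_eq_top']
    exact LieSubmodule.mem_top _
  induction hv using LieSubmodule.iSup_induction' with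
  | mem μ v hv =>
    by_contra hne
    obtain ⟨ν, hν⟩ := ex_wt H (lie_mem_genWeightSpace_of_mem_genWeightSpace hx hv) hne
    obtain ⟨y, hy⟩ := hcon i ν μ
    apply hy
    have h1 := congrFun hν y
    rw [Pi.add_apply] at h1
    change α y = ν y - μ y
    rw [h1, add_sub_cancel_right]
  | zero => exact lie_zero _
  | add v w _ _ h1 h2 => rw [lie_add, h1, h2, add_zero]

theorem count (k : ℕ) (A : Submodule Ω (Fin s → Ω))
    (hfaith : ∀ y : 𝔤, (∀ i, ∀ v : V i, ⁅y, v⁆ = 0) → y = 0)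
    (hirr : ∀ i, ∀ U : Submodule Ω (V i), (∀ y : 𝔤, ∀ u ∈ U, ⁅y, u⁆ ∈ U) → U = ⊥ ∨ U = ⊤)
    (hfew : ∀ y : 𝔤, ∀ a ∈ A, ∀ T : Finset Ω,
      (∀ b ∈ T, ∃ (i : Fin s) (v : V i), v ≠ 0 ∧ ⁅y, v⁆ + a i • v = b • v) → T.card ≤ k)
    (hhom : ∀ i j, i ≠ j → (∀ a ∈ A, a i = a j) → ∀ f : V i →ₗ[Ω] V j,
      (∀ (y : 𝔤) (v : V i), f ⁅y, v⁆ = ⁅y, f v⁆) → f = 0) :
    ∑ i, finrank Ω (V i) ^ 2 ≤ Dd k := by
  classical
  obtain ⟨x0, hx0⟩ := LieAlgebra.exists_isCartanSubalgebra_engel Ω 𝔤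
  let H : LieSubalgebra Ω 𝔤 := LieSubalgebra.engel Ω x0
  haveI : H.IsCartanSubalgebra := hx0
  let I := Σ i, Weight Ω H (V i)
  let φ : I → ((H × A) →ₗ[Ω] Ω) := fun p =>
    (p.2.toLinear).comp (LinearMap.fst Ω H A) +
      ((LinearMap.proj p.1).comp A.subtype).comp (LinearMap.snd Ω H A)
  have hφ : ∀ (i : Fin s) (μ : Weight Ω H (V i)) (y : H) (a : A),
      φ ⟨i, μ⟩ (y, a) = μ y + a.1 i := fun _ _ _ _ => rfl
  obtain ⟨⟨h, a⟩, hz⟩ := Module.Dual.exists_forall_ne_zero_of_forall_exists (K := Ω) (M := H × A)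
    (fun p : {p : I × I // φ p.1 ≠ φ p.2} => φ p.1.1 - φ p.1.2) (by
      intro p
      by_contra hcon
      push Not at hcon
      apply p.2
      exact LinearMap.ext fun x => sub_eq_zero.1 (hcon x))
  have hz' : ∀ p q : I, φ p (h, a) = φ q (h, a) → φ p = φ q := by
    intro p q hpq
    by_contra hne
    exact hz ⟨(p, q), hne⟩ (sub_eq_zero.2 hpq)
  obtain ⟨ell, hell⟩ := ex_ell (fun c : Set.range fun p : I => φ p (h, a) => (c : Ω))
    Subtype.val_injective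
  have hell' : ∀ p q : I, ell (φ p (h, a)) = ell (φ q (h, a)) → φ p = φ q := by
    intro p q hpq
    have h1 := @hell ⟨_, p, rfl⟩ ⟨_, q, rfl⟩ hpq
    exact hz' p q (congrArg Subtype.val h1)
  have hg0 : ∀ α : Weight Ω H 𝔤, ell (α h) = 0 → α.IsZero := by
    intro α hα
    obtain ⟨i, μ, ν, hμν⟩ := root_diff' (V := V) H hfaith α
    rw [hμν, map_sub, sub_eq_zero] at hα
    have h1 := hell' ⟨i, μ⟩ ⟨i, ν⟩ (by rw [hφ, hφ, map_add, map_add, hα])
    refine funext fun y => ?_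
    have h2 := LinearMap.congr_fun h1 (y, 0)
    rw [hφ, hφ] at h2
    rw [hμν, add_right_cancel h2, sub_self]
    rfl
  have hhigh := fun i => high (H := H) (h := h) (ell := ell) (V := V i)
  choose lam v hv0 hvl hv hlam hpv using hhigh
  -- the sets of values
  let T : Finset Ω := Finset.univ.image fun p : I => φ p (h, a)
  have hT : T.card ≤ k := by
    refine hfew h.1 a.1 a.2 T fun b hb => ?_
    obtain ⟨⟨i, μ⟩, _, rfl⟩ := Finset.mem_image.1 hb
    obtain ⟨u, hu0, hu⟩ := exists_forall_lie_eq_smul Ω H (V i) μ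
    refine ⟨i, u, hu0, ?_⟩
    have h1 : ⁅(h : 𝔤), u⁆ = μ h • u := hu h
    rw [h1, hφ, add_smul]
  let Ti : Fin s → Finset Ω := fun i =>
    Finset.univ.image fun μ : Weight Ω H (V i) => φ ⟨i, μ⟩ (h, a)
  have hTiT : ∀ i, Ti i ⊆ T := by
    intro i b hb
    obtain ⟨μ, _, rfl⟩ := Finset.mem_image.1 hb
    exact Finset.mem_image.2 ⟨⟨i, μ⟩, Finset.mem_univ _, rfl⟩
  have hTi : ∀ i, (Ti i).card = Fintype.card (Weight Ω H (V i)) := by
    intro i
    rw [← Finset.card_univ]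
    refine Finset.card_image_of_injective _ fun μ ν hμν => ?_
    have h1 := hz' _ _ hμν
    ext y
    have h2 := LinearMap.congr_fun h1 (y, 0)
    rw [hφ, hφ] at h2
    exact add_right_cancel h2
  have htop : ∀ i, φ ⟨i, lam i⟩ (h, a) ∈ T := fun i =>
    Finset.mem_image.2 ⟨⟨i, lam i⟩, Finset.mem_univ _, rfl⟩
  have hinj : ∀ i j, ell (φ ⟨i, lam i⟩ (h, a)) = ell (φ ⟨j, lam j⟩ (h, a)) → i = j := by
    intro i j hij
    by_contra hne
    have h1 := hell' _ _ hij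
    obtain ⟨f, hf0, hf⟩ := ex_iso (hirr i) (hirr j) hg0 (hv0 i) (hvl i) (hv i) (hpv i) (hv0 j)
      (hvl j) (hv j) (hpv j) (by
        intro y
        have h2 := LinearMap.congr_fun h1 (y, 0)
        rw [hφ, hφ] at h2
        simpa using h2)
    refine hf0 (hhom i j hne (fun b hb => ?_) f hf)
    have h2 := LinearMap.congr_fun h1 (0, ⟨b, hb⟩)
    rw [hφ, hφ] at h2
    have h3 : ∀ i (μ : Weight Ω H (V i)), μ 0 = 0 := fun i μ => map_zero μ.toLinear
    rw [h3, h3, zero_add, zero_add] at h2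
    exact h2
  have hsT : s ≤ T.card := by
    have h1 : (Finset.univ.image fun i => φ ⟨i, lam i⟩ (h, a)).card = s := by
      rw [Finset.card_image_of_injective _ (fun i j hij => hinj i j (congrArg ell hij)),
        Finset.card_univ, Fintype.card_fin]
    rw [← h1]
    refine Finset.card_le_card fun b hb => ?_
    obtain ⟨i, _, rfl⟩ := Finset.mem_image.1 hb
    exact htop i
  have hmax : ∀ i, Fintype.card (Weight Ω H (V i)) = k → ∀ b ∈ T,
      ell b ≤ ell (φ ⟨i, lam i⟩ (h, a)) := by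
    intro i hi b hb
    have h1 : Ti i = T := Finset.eq_of_subset_of_card_le (hTiT i) (by rw [hTi, hi]; exact hT)
    rw [← h1] at hb
    obtain ⟨μ, _, rfl⟩ := Finset.mem_image.1 hb
    rw [hφ, hφ, map_add, map_add]
    have := hlam i μ
    linarith
  refine sum_bd (fun i => finrank Ω (V i)) (fun i => Fintype.card (Weight Ω H (V i)))
    (fun i => dim_le (hirr i) hg0) (hsT.trans hT) (fun i => ?_) (fun i j hi hj => ?_)
  · change Fintype.card (Weight Ω H (V i)) ≤ k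
    rw [← hTi]
    exact (Finset.card_le_card (hTiT i)).trans hT
  · exact hinj i j (le_antisymm (hmax j hj _ (htop i)) (hmax i hi _ (htop j)))

end

end Pool.Agent.N588.FE
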