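import Pool.Agent.N588.FE.One

/-!
# Irreducible modules with the same highest weight are isomorphic (project FE, leaf CNT)
-/

set_option autoImplicit false
set_option linter.unusedSectionVars false

namespace Pool.Agent.N588.FE

open Module LieAlgebra LieModule
open Pool.Agent.N863.FE

attribute [local instance 100] LieRing.ofAssociativeRing

/-- the monomials in the lowering operators span a stable subspace -/
theorem mono_stable {Ω 𝔤 ι W : Type} [Field Ω] [LieRing 𝔤] [LieAlgebra Ω 𝔤]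
    [AddCommGroup W] [Module Ω W] (ρ : 𝔤 →ₗ[Ω] End Ω W)
    (hρ : ∀ a b : 𝔤, ρ a * ρ b - ρ b * ρ a = ρ ⁅a, b⁆) (P : Submodule Ω 𝔤) (e : ι → 𝔤)
    (hsp : ⊤ ≤ P ⊔ Submodule.span Ω (Set.range e)) (w : W)
    (hw : ∀ y ∈ P, ∃ c : Ω, ρ y w = c • w) (y : 𝔤) (u : W)
    (hu : u ∈ Submodule.span Ω (Set.range fun l : List ι => (l.map fun i => ρ (e i)).prod w)) :
    ρ y u ∈ Submodule.span Ω
      (Set.range fun l : List ι => (l.map fun i => ρ (e i)).prod w) := by
  set M := Submodule.span Ω (Set.range fun l : List ι => (l.map fun i => ρ (e i)).prod w) with hM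
  have hmem : ∀ l : List ι, (l.map fun i => ρ (e i)).prod w ∈ M := fun l =>
    Submodule.subset_span ⟨l, rfl⟩
  have he : ∀ i, ∀ m ∈ M, ρ (e i) m ∈ M := by
    intro i m hm
    induction hm using Submodule.span_induction with
    | mem x hx =>
      obtain ⟨l, rfl⟩ := hx
      have := hmem (i :: l)
      simpa [List.map_cons, List.prod_cons, Module.End.mul_apply] using this
    | zero => rw [map_zero]; exact M.zero_mem
    | add x y _ _ h1 h2 => rw [map_add]; exact M.add_mem h1 h2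
    | smul c x _ h1 => rw [map_smul]; exact M.smul_mem c h1
  have hE : ∀ y ∈ Submodule.span Ω (Set.range e), ∀ m ∈ M, ρ y m ∈ M := by
    intro y hy m hm
    induction hy using Submodule.span_induction with
    | mem x hx =>
      obtain ⟨i, rfl⟩ := hx
      exact he i m hm
    | zero => rw [map_zero, LinearMap.zero_apply]; exact M.zero_mem
    | add x y _ _ h1 h2 => rw [map_add, LinearMap.add_apply]; exact M.add_mem h1 h2
    | smul c x _ h1 => rw [map_smul, LinearMap.smul_apply]; exact M.smul_mem c h1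
  have claim : ∀ l : List ι, ∀ x : 𝔤, ρ x ((l.map fun i => ρ (e i)).prod w) ∈ M := by
    intro l
    induction l with
    | nil =>
      intro x
      obtain ⟨p, hp, y, hy, rfl⟩ := Submodule.mem_sup.1 (hsp (show x ∈ ⊤ from trivial))
      rw [map_add, LinearMap.add_apply]
      refine M.add_mem ?_ (hE y hy _ (hmem _))
      obtain ⟨c, hc⟩ := hw p hp
      rw [List.map_nil, List.prod_nil, Module.End.one_apply, hc]
      have := hmem []
      rw [List.map_nil, List.prod_nil, Module.End.one_apply] at this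
      exact M.smul_mem c this
    | cons i l ih =>
      intro x
      obtain ⟨p, hp, y, hy, rfl⟩ := Submodule.mem_sup.1 (hsp (show x ∈ ⊤ from trivial))
      rw [map_add, LinearMap.add_apply]
      refine M.add_mem ?_ (hE y hy _ (hmem _))
      rw [List.map_cons, List.prod_cons, Module.End.mul_apply]
      have e1 : ρ p (ρ (e i) ((l.map fun i => ρ (e i)).prod w)) =
          ρ (e i) (ρ p ((l.map fun i => ρ (e i)).prod w)) +
          (ρ p * ρ (e i) - ρ (e i) * ρ p) ((l.map fun i => ρ (e i)).prod w) := by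
        rw [LinearMap.sub_apply, Module.End.mul_apply, Module.End.mul_apply]
        abel
      rw [e1, hρ]
      exact M.add_mem (he i _ (ih p)) (ih _)
  induction hu using Submodule.span_induction with
  | mem x hx =>
    obtain ⟨l, rfl⟩ := hx
    exact claim l y
  | zero => rw [map_zero]; exact M.zero_mem
  | add x y _ _ h1 h2 => rw [map_add]; exact M.add_mem h1 h2
  | smul c x _ h1 => rw [map_smul]; exact M.smul_mem c h1

section

variable {Ω 𝔤 : Type} [Field Ω] [IsAlgClosed Ω] [CharZero Ω] [LieRing 𝔤] [LieAlgebra Ω 𝔤]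
  [FiniteDimensional Ω 𝔤] [IsKilling Ω 𝔤] {H : LieSubalgebra Ω 𝔤} [H.IsCartanSubalgebra]
  {h : H} {ell : Ω →ₗ[ℚ] ℚ}
  {V : Type} [AddCommGroup V] [Module Ω V] [LieRingModule 𝔤 V] [LieModule Ω 𝔤 V]
  [FiniteDimensional Ω V]
  {V' : Type} [AddCommGroup V'] [Module Ω V'] [LieRingModule 𝔤 V'] [LieModule Ω 𝔤 V']
  [FiniteDimensional Ω V']

theorem ex_iso
    (hirr : ∀ U : Submodule Ω V, (∀ y : 𝔤, ∀ u ∈ U, ⁅y, u⁆ ∈ U) → U = ⊥ ∨ U = ⊤)
    (hirr' : ∀ U : Submodule Ω V', (∀ y : 𝔤, ∀ u ∈ U, ⁅y, u⁆ ∈ U) → U = ⊥ ∨ U = ⊤)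
    (hg0 : ∀ α : Weight Ω H 𝔤, ell (α h) = 0 → α.IsZero)
    {lam : Weight Ω H V} {v : V} (hv0 : v ≠ 0) (hvl : v ∈ genWeightSpace V (lam : H → Ω))
    (hv : ∀ y : H, ⁅y, v⁆ = lam y • v)
    (hpv : ∀ α ∈ pos H h ell, ∀ y ∈ rootSpace H (α : H → Ω), ⁅y, v⁆ = 0)
    {lam' : Weight Ω H V'} {v' : V'} (hv0' : v' ≠ 0)
    (hvl' : v' ∈ genWeightSpace V' (lam' : H → Ω))
    (hv' : ∀ y : H, ⁅y, v'⁆ = lam' y • v')
    (hpv' : ∀ α ∈ pos H h ell, ∀ y ∈ rootSpace H (α : H → Ω), ⁅y, v'⁆ = 0)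
    (hlam : ∀ y : H, lam y = lam' y) :
    ∃ f : V →ₗ[Ω] V', f ≠ 0 ∧ ∀ (y : 𝔤) (u : V), f ⁅y, u⁆ = ⁅y, f u⁆ := by
  classical
  have hx' : ∀ α : Weight Ω H 𝔤, ∃ x : 𝔤, x ∈ rootSpace H (-α : H → Ω) ∧ x ≠ 0 := by
    intro α
    obtain ⟨x, hx, hx0⟩ := (-α).exists_ne_zero
    exact ⟨x, hx, hx0⟩
  choose x hx hx0 using hx'
  have hsp := span_top hg0 x hx hx0
  let ρ : 𝔤 →ₗ[Ω] End Ω (V × V') :=
    { toFun := fun y => (toEnd Ω 𝔤 V y).prodMap (toEnd Ω 𝔤 V' y)
      map_add' := by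
        intro a b
        refine LinearMap.ext fun p => ?_
        simp
      map_smul' := by
        intro a b
        refine LinearMap.ext fun p => ?_
        simp }
  have hρa : ∀ (y : 𝔤) (p : V × V'), ρ y p = (⁅y, p.1⁆, ⁅y, p.2⁆) := fun _ _ => rfl
  have hρ : ∀ a b : 𝔤, ρ a * ρ b - ρ b * ρ a = ρ ⁅a, b⁆ := by
    intro a b
    refine LinearMap.ext fun p => ?_
    rw [LinearMap.sub_apply, Module.End.mul_apply, Module.End.mul_apply, hρa, hρa, hρa, hρa, hρa]
    ext
    · change ⁅a, ⁅b, p.1⁆⁆ - ⁅b, ⁅a, p.1⁆⁆ = ⁅⁅a, b⁆, p.1⁆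
      rw [lie_lie]
    · change ⁅a, ⁅b, p.2⁆⁆ - ⁅b, ⁅a, p.2⁆⁆ = ⁅⁅a, b⁆, p.2⁆
      rw [lie_lie]
  let Q : Submodule Ω 𝔤 :=
    { carrier := {x | ∃ c : Ω, ρ x (v, v') = c • (v, v')}
      zero_mem' := ⟨0, by rw [map_zero, LinearMap.zero_apply, zero_smul]⟩
      add_mem' := by
        rintro a b ⟨c, hc⟩ ⟨d, hd⟩
        exact ⟨c + d, by rw [map_add, LinearMap.add_apply, hc, hd, add_smul]⟩
      smul_mem' := by
        rintro r a ⟨c, hc⟩
        exact ⟨r * c, by rw [map_smul, LinearMap.smul_apply, hc, mul_smul]⟩ }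
  have hQ : PP H h ell ≤ Q := by
    refine sup_le (fun y hy => ⟨lam ⟨y, hy⟩, ?_⟩) (iSup₂_le fun α hα y hy => ⟨0, ?_⟩)
    · rw [hρa]
      have h1 := hv ⟨y, hy⟩
      have h2 := hv' ⟨y, hy⟩
      rw [← hlam] at h2
      change ((⁅y, v⁆, ⁅y, v'⁆) : V × V') = _
      change ⁅y, v⁆ = _ at h1
      change ⁅y, v'⁆ = _ at h2
      rw [h1, h2]
      rfl
    · rw [hρa, zero_smul]
      change ((⁅y, v⁆, ⁅y, v'⁆) : V × V') = _
      rw [hpv α hα y hy, hpv' α hα y hy]
      rfl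
  let e : {α : Weight Ω H 𝔤 // α ∈ pos H h ell} → 𝔤 := fun α => x α.1
  let M : Submodule Ω (V × V') := Submodule.span Ω
    (Set.range fun l : List {α : Weight Ω H 𝔤 // α ∈ pos H h ell} =>
      (l.map fun i => ρ (e i)).prod (v, v'))
  have hMst : ∀ (y : 𝔤) (u : V × V'), u ∈ M → ρ y u ∈ M := fun y u hu =>
    mono_stable ρ hρ (PP H h ell) e hsp (v, v') (fun y hy => hQ hy) y u hu
  have hvM : (v, v') ∈ M := Submodule.subset_span ⟨[], by simp⟩
  have hprod : ∀ l : List {α : Weight Ω H 𝔤 // α ∈ pos H h ell},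
      (l.map fun i => ρ (e i)).prod (v, v') =
        ((l.map fun α => toEnd Ω 𝔤 V (x α.1)).prod v,
          (l.map fun α => toEnd Ω 𝔤 V' (x α.1)).prod v') := by
    intro l
    induction l with
    | nil => rfl
    | cons i l ih =>
      rw [List.map_cons, List.prod_cons, Module.End.mul_apply, ih, hρa]
      rfl
  obtain ⟨θ, hθ, hθ0⟩ := ex_theta (h := h) (ell := ell) x hx hvl hv0
  obtain ⟨θ', hθ', hθ0'⟩ := ex_theta (h := h) (ell := ell) x hx hvl' hv0'
  let Θ : V × V' →ₗ[Ω] Ω := (θ' v') • (θ.comp (LinearMap.fst Ω V V')) -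
    (θ v) • (θ'.comp (LinearMap.snd Ω V V'))
  have hΘ : ∀ p : V × V', Θ p = θ' v' * θ p.1 - θ v * θ' p.2 := fun _ => rfl
  have hΘM : M ≤ LinearMap.ker Θ := by
    rw [Submodule.span_le]
    rintro _ ⟨l, rfl⟩
    rw [SetLike.mem_coe, LinearMap.mem_ker]
    change Θ ((l.map fun i => ρ (e i)).prod (v, v')) = 0
    rw [hprod, hΘ]
    by_cases hl : l = []
    · subst hl
      simp only [List.map_nil, List.prod_nil, Module.End.one_apply]
      ring
    · simp only [hθ0 l hl, hθ0' l hl, mul_zero, sub_zero]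
  -- `M` is the graph of an isomorphism
  have hU : M.comap (LinearMap.inr Ω V V') = ⊥ := by
    refine (hirr' _ fun y u hu => ?_).resolve_right fun h1 => ?_
    · have h1 := hMst y _ hu
      rw [hρa] at h1
      rw [Submodule.mem_comap]
      change ((0 : V), ⁅y, u⁆) ∈ M
      change (⁅y, (0 : V)⁆, ⁅y, u⁆) ∈ M at h1
      rwa [lie_zero] at h1
    · have h2 : v' ∈ M.comap (LinearMap.inr Ω V V') := by
        rw [h1]
        trivial
      have h3 := hΘM h2
      rw [LinearMap.mem_ker, hΘ] at h3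
      change θ' v' * θ 0 - θ v * θ' v' = 0 at h3
      rw [map_zero, mul_zero, zero_sub, neg_eq_zero] at h3
      rcases mul_eq_zero.1 h3 with h4 | h4
      · exact hθ h4
      · exact hθ' h4
  have hT : M.map (LinearMap.fst Ω V V') = ⊤ := by
    refine (hirr _ fun y u hu => ?_).resolve_left fun h1 => ?_
    · obtain ⟨p, hp, rfl⟩ := hu
      exact ⟨ρ y p, hMst y p hp, rfl⟩
    · have h2 : v ∈ M.map (LinearMap.fst Ω V V') := ⟨_, hvM, rfl⟩
      rw [h1] at h2
      exact hv0 ((Submodule.mem_bot _).1 h2)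
  let g : M →ₗ[Ω] V := (LinearMap.fst Ω V V').comp M.subtype
  have hg : Function.Bijective g := by
    constructor
    · rw [injective_iff_map_eq_zero]
      rintro ⟨⟨a, b⟩, hab⟩ h1
      have h2 : a = 0 := h1
      subst h2
      have h3 : b ∈ M.comap (LinearMap.inr Ω V V') := hab
      rw [hU] at h3
      have h4 : b = 0 := (Submodule.mem_bot _).1 h3
      subst h4
      rfl
    · intro a
      have h1 : a ∈ M.map (LinearMap.fst Ω V V') := by
        rw [hT]
        trivial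
      obtain ⟨p, hp, rfl⟩ := h1
      exact ⟨⟨p, hp⟩, rfl⟩
  let E := LinearEquiv.ofBijective g hg
  let f : V →ₗ[Ω] V' := (LinearMap.snd Ω V V').comp (M.subtype.comp E.symm.toLinearMap)
  have hf : ∀ a : V, (a, f a) ∈ M := by
    intro a
    have h1 : ((E.symm a : M) : V × V').1 = a := E.apply_symm_apply a
    have h2 : ((E.symm a : M) : V × V') = (a, f a) := Prod.ext h1 rfl
    rw [← h2]
    exact (E.symm a).2
  have huniq : ∀ (a : V) (b c : V'), (a, b) ∈ M → (a, c) ∈ M → b = c := by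
    intro a b c hb hc
    have h1 := M.sub_mem hb hc
    have h2 : b - c ∈ M.comap (LinearMap.inr Ω V V') := by
      rw [Submodule.mem_comap]
      change ((0 : V), b - c) ∈ M
      have h3 : ((a, b) : V × V') - (a, c) = (0, b - c) := by
        rw [Prod.mk_sub_mk, sub_self]
      rwa [h3] at h1
    rw [hU] at h2
    exact sub_eq_zero.1 ((Submodule.mem_bot _).1 h2)
  refine ⟨f, ?_, ?_⟩
  · intro h1
    have h2 := huniq v (f v) v' (hf v) hvM
    rw [h1, LinearMap.zero_apply] at h2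
    exact hv0' h2.symm
  · intro y u
    exact huniq ⁅y, u⁆ _ _ (hf _) (hMst y _ (hf u))

end

end Pool.Agent.N588.FE
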